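import Pool.Agent.H2.GA.Four
import Pool.Agent.Results.MP_1d384c_nt.GaussianLaw

/-!
# One-sided laws for the Gaussian sums of the traces of Frobenius of an abelian variety

Let `A` be an abelian variety of dimension `g` over a number field `K`, embedded in a projective space and given
there by homogeneous polynomials with coefficients in `𝓞 K`, `S` a finite set of primes, and for `v ∉ S` let
`α_{v,1}, …, α_{v,2g}` be the Weil numbers, `|α_{v,j}| = √q_v`, with `#A(κ) = ∏_j (1 - α_{v,j}^e)` for the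
extensions `κ` of degree `e` of the residue field (`IsWeil`). Let `L(s) = ∏_{v ∉ S} ∏_j (1 - α_{v,j} q_v^{-s})⁻¹`
for `Re s > 3/2`; the omitted factors have neither zeros nor poles at `s = 1`. For real `b` and `T > 0` let

`g_b(T) = (π T)^(-1/2) ∑_{v ∉ S, k ≥ 1} (α_{v,1}^k + … + α_{v,2g}^k) (log q_v) q_v^{bk} exp (-(log q_v^k)² / (4T))`,

a real number, and let `R(b, c)` be the region `Re (s + b) > 0`, `Re (s + b)² > c`, the interior of a branch of a
hyperbola, which meets the real axis in `s > √c - b`.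

(3) Let `c ≥ 0`. If `L(s)` has an analytic continuation along the real axis to all `s > √c - b` without zeros there
(a condition on REAL points only), then ONE of the two bounds `g_b(T) ≤ exp ((c + ε) T)` and
`g_b(T) ≥ -exp ((c + ε) T)`, for large `T` and every `ε > 0`, implies the other one and the continuation of `L(s)`
to `R(b, c)` without zeros (and is implied by it).

(4) Let `b > -1` and let `L(s)` have an analytic continuation `F` along the real axis to `s ≥ 1`, without zeros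
at `s > 1` and with `ord_{s=1} F = r`. If `g_b(T) ≥ -(2ρ + ε) exp ((1 + b)² T)` for large `T` and every `ε > 0`, then
`r ≤ ρ`; if `g_b(T) ≤ -(2ρ - ε) exp ((1 + b)² T)` for large `T` and every `ε > 0`, then `r ≥ ρ`; in both cases `L(s)`
extends to `R(b, (1 + b)²)` without zeros.

(5) If `F` is an analytic continuation to some `R(b, c)`, `c < (1 + b)²`, with `F ≠ 0` at the real `s > 1` and on the
hyperbola `Re (s + b)² = (1 + b)²` outside `s = 1` (for all but countably many `b`), and `ord_{s=1} F = r`, then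
the first law of (4) is EQUIVALENT to `r ≤ ρ` together with `F ≠ 0` on `R(b, (1 + b)²)`, and the second one to
`r ≥ ρ` together with `F ≠ 0` on `R(b, (1 + b)²)`.

With `ρ = rank A(K)` the two inequalities `ord_{s=1} L(s, A) ≤ rank A(K)` and `ord_{s=1} L(s, A) ≥ rank A(K)` of
Q1 are thus separately given by a lower and by an upper bound for sums over the numbers of points of `A`.

The proofs (Landau's theorem for the Laplace transform of `g_b`) are in `Pool.Agent.H2.GA`.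
-/

set_option autoImplicit false

namespace Pool.Agent.H2.GA.OneSidedLaws

open Filter Topology NumberField IsDedekindDomain

open Pool.Agent.Results.MP_1d384c_nt.GaussianLaw (norm cone IsWeil L Region IsContinuation)

variable {K : Type} [Field K] [NumberField K] {n g : ℕ}

/-- The term of `g_b(T)` for the prime `v = x.1` and `k = x.2 + 1`, without the factor `(π T)^(-1/2)`:
`(∑_j α_{v,j}^k) (log q_v) q_v^{bk} exp (-(k log q_v)² / (4T))`. (The power sum is real, see `result`.) -/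
noncomputable def term (S : Finset (HeightOneSpectrum (𝓞 K)))
    (α : HeightOneSpectrum (𝓞 K) → Fin (2 * g) → ℂ) (b T : ℝ)
    (x : {v : HeightOneSpectrum (𝓞 K) // v ∉ S} × ℕ) : ℝ :=
  (∑ j, α x.1 j ^ (x.2 + 1)).re * Real.log (norm x.1.1) *
    ((norm x.1.1 : ℝ) ^ (b * ((x.2 : ℝ) + 1)) *
      Real.exp (-((((x.2 : ℝ) + 1) * Real.log (norm x.1.1)) ^ 2 / (4 * T))))

/-- The Gaussian sum `g_b(T)` of the traces of the powers of the Frobenius elements. -/
noncomputable def gauss (S : Finset (HeightOneSpectrum (𝓞 K)))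
    (α : HeightOneSpectrum (𝓞 K) → Fin (2 * g) → ℂ) (b T : ℝ) : ℝ :=
  (Real.sqrt (Real.pi * T))⁻¹ * ∑' x, term S α b T x

/-- `L(s)` has an analytic continuation to `R(b, c)` (and `Re s > 3/2`) without zeros in `R(b, c)`. -/
def ZeroFree (S : Finset (HeightOneSpectrum (𝓞 K)))
    (α : HeightOneSpectrum (𝓞 K) → Fin (2 * g) → ℂ) (b c : ℝ) : Prop :=
  ∃ F : ℂ → ℂ, IsContinuation S α b c F ∧ ∀ s ∈ Region b c, F s ≠ 0

/-- `F` is an analytic continuation of `L(s)` along the real axis to the real numbers in `I`. -/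
def IsRealContinuation (S : Finset (HeightOneSpectrum (𝓞 K)))
    (α : HeightOneSpectrum (𝓞 K) → Fin (2 * g) → ℂ) (I : Set ℝ) (F : ℂ → ℂ) : Prop :=
  (∀ x : ℝ, x ∈ I → AnalyticAt ℂ F x) ∧ ∀ s : ℂ, 3 / 2 < s.re → F s = L S α s

/-- `L(s)` has an analytic continuation along the real axis to all `s > x₀`, without zeros there. -/
def RealSegment (S : Finset (HeightOneSpectrum (𝓞 K)))
    (α : HeightOneSpectrum (𝓞 K) → Fin (2 * g) → ℂ) (x₀ : ℝ) : Prop :=
  ∃ F : ℂ → ℂ, IsRealContinuation S α (Set.Ioi x₀) F ∧ ∀ x : ℝ, x₀ < x → F x ≠ 0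

/-- `g_b(T) ≥ -(2ρ + ε) exp ((1 + b)² T)` for every `ε > 0` and all large `T`. -/
def LowerLaw (S : Finset (HeightOneSpectrum (𝓞 K)))
    (α : HeightOneSpectrum (𝓞 K) → Fin (2 * g) → ℂ) (b ρ : ℝ) : Prop :=
  ∀ ε : ℝ, 0 < ε → ∀ᶠ T : ℝ in atTop, -(2 * ρ + ε) * Real.exp ((1 + b) ^ 2 * T) ≤ gauss S α b T

/-- `g_b(T) ≤ -(2ρ - ε) exp ((1 + b)² T)` for every `ε > 0` and all large `T`. -/
def UpperLaw (S : Finset (HeightOneSpectrum (𝓞 K)))
    (α : HeightOneSpectrum (𝓞 K) → Fin (2 * g) → ℂ) (b ρ : ℝ) : Prop :=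
  ∀ ε : ℝ, 0 < ε → ∀ᶠ T : ℝ in atTop, gauss S α b T ≤ -(2 * ρ - ε) * Real.exp ((1 + b) ^ 2 * T)

open Pool.Agent.R765.Ga hiding lamE cE Bd DD_E LEu LEu_deriv two_le_p log_pos_p
open Pool.Agent.W334.BSD
open Pool.Agent.R765.Ga.X (Nm lamE cE Bd DD_E LEu LEu_deriv)
open Pool.Agent.H2.GA hiding LowerLaw UpperLaw

variable {S : Finset (HeightOneSpectrum (𝓞 K))} {α : HeightOneSpectrum (𝓞 K) → Fin (2 * g) → ℂ}

/-- the power sums are real -/
lemma real_sums {X : Set (MvPolynomial (Fin n) (𝓞 K))} (hX : IsWeil X g S α)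
    (v : HeightOneSpectrum (𝓞 K)) (hv : v ∉ S) (k : ℕ) : (∑ j, α v j ^ k).im = 0 := by
  obtain ⟨h1, h2⟩ := hX v hv
  have hq : 2 ≤ norm v := Pool.Agent.H921R2.TatePole.two_le_nm v
  have hq1 : (1 : ℝ) < (norm v : ℝ) := by exact_mod_cast (by omega : 1 < norm v)
  refine power_sum_real (α v) (s := √(norm v : ℝ)) ?_ h1 (fun e he => ?_) k
  · rw [Real.lt_sqrt zero_le_one]
    linarith
  let : Field (𝓞 K ⧸ v.asIdeal) := Ideal.Quotient.field v.asIdeal
  have : Finite (𝓞 K ⧸ v.asIdeal) := Ideal.finiteQuotientOfFreeOfNeBot v.asIdeal v.ne_bot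
  set p := ringChar (𝓞 K ⧸ v.asIdeal) with hp
  have hpf : Fact p.Prime := by
    refine ⟨?_⟩
    exact CharP.char_is_prime (𝓞 K ⧸ v.asIdeal) p
  have : NeZero e := ⟨by omega⟩
  let := ZMod.algebra (𝓞 K ⧸ v.asIdeal) p
  set κ := FiniteField.Extension (𝓞 K ⧸ v.asIdeal) p e with hκ
  set φ : 𝓞 K →+* κ := (algebraMap (𝓞 K ⧸ v.asIdeal) κ).comp (Ideal.Quotient.mk v.asIdeal) with hφ
  have hker : RingHom.ker φ = v.asIdeal := by
    rw [hφ, ← RingHom.comap_ker, (RingHom.injective_iff_ker_eq_bot _).1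
      (algebraMap (𝓞 K ⧸ v.asIdeal) κ).injective, ← RingHom.ker_eq_comap_bot, Ideal.mk_ker]
  have hcard : Nat.card κ = norm v ^ e := by
    rw [hκ, FiniteField.natCard_extension]
    rfl
  have : Finite κ := Nat.finite_of_card_ne_zero (by
    rw [hcard]
    positivity)
  have h3 := h2 κ φ e hker hcard
  have h4 : ((norm v : ℂ) ^ e - 1) = (((norm v : ℝ) ^ e - 1 : ℝ) : ℂ) := by push_cast; rfl
  have h5 : (0 : ℝ) < (norm v : ℝ) ^ e - 1 := by
    have := one_lt_pow₀ hq1 (by omega : e ≠ 0)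
    linarith
  have h6 := congrArg Complex.im h3
  rw [h4, Complex.im_ofReal_mul, Complex.natCast_im] at h6
  rcases mul_eq_zero.1 h6.symm with h7 | h7
  · exact absurd h7 h5.ne'
  · exact h7

open Pool.Agent.Results.MP_1d384c_nt.GaussianLaw (NS MS hN hM L_deriv gauss_eq half_eq term_summable)

lemma term_cast {X : Set (MvPolynomial (Fin n) (𝓞 K))} (hX : IsWeil X g S α) (b T : ℝ)
    (x : {v : HeightOneSpectrum (𝓞 K) // v ∉ S} × ℕ) :
    (term S α b T x : ℂ) = Pool.Agent.Results.MP_1d384c_nt.GaussianLaw.term S α b T x := by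
  unfold term Pool.Agent.Results.MP_1d384c_nt.GaussianLaw.term
  have h : (((∑ j, α x.1.1 j ^ (x.2 + 1)).re : ℝ) : ℂ) = ∑ j, α x.1.1 j ^ (x.2 + 1) :=
    Complex.ext (by simp) (by
      rw [real_sums hX x.1.1 x.1.2 (x.2 + 1)]
      simp)
  rw [Complex.ofReal_mul, Complex.ofReal_mul, h]

lemma gauss_cast {X : Set (MvPolynomial (Fin n) (𝓞 K))} (hX : IsWeil X g S α) (b T : ℝ) :
    gauss S α b T = (kG (lamE (NS S)) (tw (lamE (NS S)) (cE (NS S) (MS S α)) b) T).re := by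
  rw [← gauss_eq]
  have h : (gauss S α b T : ℂ) = Pool.Agent.Results.MP_1d384c_nt.GaussianLaw.gauss S α b T := by
    unfold gauss Pool.Agent.Results.MP_1d384c_nt.GaussianLaw.gauss
    rw [Complex.ofReal_mul, Complex.ofReal_inv, Complex.ofReal_tsum]
    congr 1
    exact tsum_congr fun x => term_cast hX b T x
  rw [← h, Complex.ofReal_re]

lemma cE_im {X : Set (MvPolynomial (Fin n) (𝓞 K))} (hX : IsWeil X g S α)
    (x : {v : HeightOneSpectrum (𝓞 K) // v ∉ S} × ℕ) : (cE (NS S) (MS S α) x).im = 0 := by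
  unfold cE
  have e2 : (MS S α x.1 ^ (x.2 + 1)).trace = ∑ j, α x.1 j ^ (x.2 + 1) := by
    unfold MS
    rw [Matrix.diagonal_pow, Matrix.trace_diagonal]
    rfl
  rw [e2, Complex.im_mul_ofReal, real_sums hX x.1.1 x.1.2, zero_mul]

lemma real_iff {x₀ : ℝ} : RealSegment S α x₀ ↔ RealCont (L S α) (3 / 2) x₀ := by
  constructor
  · rintro ⟨F, ⟨h1, h2⟩, h3⟩
    exact ⟨F, fun x hx => ⟨h1 x hx, h3 x hx⟩, h2⟩
  · rintro ⟨F, h1, h2⟩
    exact ⟨F, ⟨fun x hx => (h1 x hx).1, h2⟩, fun x hx => (h1 x hx).2⟩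

/-- **One-sided laws for the Gaussian sums of the traces of Frobenius.** -/
theorem result (K : Type) [Field K] [NumberField K] (n g : ℕ)
    (X : Set (MvPolynomial (Fin n) (𝓞 K))) (S : Finset (HeightOneSpectrum (𝓞 K)))
    (α : HeightOneSpectrum (𝓞 K) → Fin (2 * g) → ℂ) (hX : IsWeil X g S α) :
    (∀ v : HeightOneSpectrum (𝓞 K), v ∉ S → ∀ k : ℕ, (∑ j, α v j ^ k).im = 0) ∧
    (∀ b T : ℝ, 0 < T → Summable fun x => ‖term S α b T x‖) ∧
    (∀ b c : ℝ, 0 ≤ c → List.TFAE [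
      ZeroFree S α b c,
      ∀ ε : ℝ, 0 < ε → ∀ᶠ T : ℝ in atTop, |gauss S α b T| ≤ Real.exp ((c + ε) * T),
      RealSegment S α (√c - b) ∧
        ∀ ε : ℝ, 0 < ε → ∀ᶠ T : ℝ in atTop, gauss S α b T ≤ Real.exp ((c + ε) * T),
      RealSegment S α (√c - b) ∧
        ∀ ε : ℝ, 0 < ε → ∀ᶠ T : ℝ in atTop, -Real.exp ((c + ε) * T) ≤ gauss S α b T]) ∧
    (∀ b : ℝ, -1 < b → ∀ F : ℂ → ℂ, IsRealContinuation S α (Set.Ici 1) F →
      (∀ x : ℝ, 1 < x → F x ≠ 0) → ∀ r : ℕ, analyticOrderAt F 1 = (r : ℕ∞) → ∀ ρ : ℝ,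
      (LowerLaw S α b ρ → r ≤ ρ ∧ ZeroFree S α b ((1 + b) ^ 2)) ∧
      (UpperLaw S α b ρ → ρ ≤ r ∧ ZeroFree S α b ((1 + b) ^ 2))) ∧
    ∀ b c : ℝ, -1 < b → c < (1 + b) ^ 2 → ∀ F : ℂ → ℂ, IsContinuation S α b c F →
      (∀ x : ℝ, 1 < x → F x ≠ 0) →
      (∀ s : ℂ, 0 < (s + b).re → ((s + b) ^ 2).re = (1 + b) ^ 2 → s ≠ 1 → F s ≠ 0) →
      ∀ r : ℕ, analyticOrderAt F 1 = (r : ℕ∞) → ∀ ρ : ℝ,
      (LowerLaw S α b ρ ↔ r ≤ ρ ∧ ∀ s ∈ Region b ((1 + b) ^ 2), F s ≠ 0) ∧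
      (UpperLaw S α b ρ ↔ ρ ≤ r ∧ ∀ s ∈ Region b ((1 + b) ^ 2), F s ≠ 0) := by
  classical
  have D := DD_E (hN (S := S)) (hM hX)
  rw [half_eq] at D
  have hLd : ∀ s : ℂ, 3 / 2 < s.re → _ := fun s hs => L_deriv hX hs
  have hre := cE_im hX
  refine ⟨fun v hv k => real_sums hX v hv k, fun b T hT => ?_, fun b c hc => ?_,
    fun b hb F hF hF0 r hr ρ => ?_, fun b c hb hc F hF hF0 hcurve r hr ρ => ?_⟩
  · refine (term_summable hX b hT).congr fun x => ?_
    rw [← term_cast hX, Complex.norm_real]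
  · have key := one_iff D hre hLd b hc
    simp only [real_iff, gauss_cast hX]
    exact key
  · have key := laws D hre hLd hb (F := F) (fun x hx => ⟨hF.1 x hx.le, hF0 x hx⟩) hF.2
      (by simpa using hF.1 1 (Set.mem_Ici.2 le_rfl)) hr ρ
    unfold LowerLaw UpperLaw
    simp only [gauss_cast hX]
    exact key
  · have key := laws_iff D hre hLd hb hc hF hr hF0 hcurve ρ
    unfold LowerLaw UpperLaw
    simp only [gauss_cast hX]
    exact key

end Pool.Agent.H2.GA.OneSidedLaws
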